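import Pool.Agent.Results.MP_8f36f1_lc.DominatingBound

/-!
# MP_54d188_lc : lower bounds for everywhere-dominating families of functions from `ω₁` to `ω`

An everywhere-dominating family `F` of functions `ω₁ → ω` has size at least the dominating number
`𝔡(ω₁)`; and at most `max (#F) ℵ_n` many finite slaloms cover all functions `ω₁ → ω_n`, so that
there are at most `max (#F) ℵ_n` many pairwise eventually different functions `ω₁ → ω_n`.
-/

namespace Pool.Agent.Results.MP_54d188_lc.LowerBounds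

open Cardinal Set Ordinal
open Pool.Agent.Helper797F

/-- A well-order of type `ω₁`. -/
abbrev Om : Type := (ℵ₁ : Cardinal.{0}).ord.ToType

/-- The family `F` of functions `ω₁ → ω` is everywhere-dominating. -/
def EverywhereDominating (F : Set (Om → ℕ)) : Prop :=
  ∀ g : Om → ℕ, ∃ f ∈ F, ∀ a, g a < f a

theorem countable_Iic (a : Om) : (Set.Iic a).Countable :=
  MP_8f36f1_lc.DominatingBound.countable_Iic a

theorem not_countable_univ : ¬ (Set.univ : Set Om).Countable :=
  MP_8f36f1_lc.DominatingBound.not_countable_univ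

theorem exists_bound (S : Set Om) (hS : S.Countable) : ∃ b, ∀ a ∈ S, a < b :=
  MP_8f36f1_lc.DominatingBound.exists_bound S hS

theorem exists_monotone (h : Om → Om) : ∃ h' : Om → Om, (∀ a, h a ≤ h' a) ∧
    ∀ a b, a ≤ b → h' a ≤ h' b :=
  MP_8f36f1_lc.DominatingBound.exists_monotone h

theorem exists_piece (f : Om → ℕ) : ∃ n, ¬ (f ⁻¹' {n}).Countable := by
  by_contra hcon
  push Not at hcon
  apply not_countable_univ
  refine (Set.countable_iUnion hcon).mono fun a _ => mem_iUnion.2 ⟨f a, rfl⟩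

/-- an increasing sequence in an uncountable set, above `a`, with a bound -/
theorem exists_seq (C : Set Om) (hC : ¬ C.Countable) (a : Om) :
    ∃ (c : Om) (b : ℕ → Om), (∀ i, b i ∈ C ∧ a ≤ b i ∧ b i < c) ∧ ∀ i j, i < j → b i < b j := by
  have h1 : ∀ a, ∃ b ∈ C, a < b := by
    intro a
    by_contra hcon
    push Not at hcon
    exact hC ((countable_Iic a).mono fun b hb => hcon b hb)
  choose s hs1 hs2 using h1
  let b : ℕ → Om := fun n => Nat.rec (s a) (fun _ x => s x) n
  have hb : ∀ i, b i ∈ C ∧ a ≤ b i := by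
    intro i
    induction i with
    | zero => exact ⟨hs1 a, (hs2 a).le⟩
    | succ i ih => exact ⟨hs1 (b i), ih.2.trans (hs2 (b i)).le⟩
  have hmono : StrictMono b := strictMono_nat_of_lt_succ fun i => hs2 (b i)
  obtain ⟨c, hc⟩ := exists_bound (Set.range b) (Set.countable_range b)
  exact ⟨c, b, fun i => ⟨(hb i).1, (hb i).2, hc _ ⟨i, rfl⟩⟩, fun i j hij => hmono hij⟩

theorem part1 (F : Set (Om → ℕ)) (hF : EverywhereDominating F) :
    ∃ D : Set (Om → Om), #D ≤ #F ∧ ∀ h : Om → Om, ∃ g ∈ D, ∀ a, h a ≤ g a := by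
  classical
  choose n hn using exists_piece
  have hseq := fun f : Om → ℕ => exists_seq _ (hn f)
  choose g b hb hmono using hseq
  refine ⟨g '' F, Cardinal.mk_image_le, fun h₀ => ?_⟩
  obtain ⟨h, hh, hhm⟩ := exists_monotone h₀
  obtain ⟨c, hc⟩ := exists_coloring (Y := Om) (· < ·) inferInstance
    (fun a => (countable_Iic a).mono fun b (hb : b < a) => hb.le) h
  obtain ⟨f, hf, hcf⟩ := hF c
  refine ⟨g f, ⟨f, hf, rfl⟩, fun a => ?_⟩
  have h1 : ∀ i, c (b f a i) < n f := by
    intro i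
    have h2 : f (b f a i) = n f := (hb f a i).1
    rw [← h2]
    exact hcf _
  obtain ⟨i, j, hij, hcij⟩ : ∃ i j, i < j ∧ c (b f a i) = c (b f a j) := by
    obtain ⟨i, j, hne, h2⟩ := Finite.exists_ne_map_eq_of_infinite
      (fun i : ℕ => (⟨c (b f a i), h1 i⟩ : Fin (n f)))
    have h3 : c (b f a i) = c (b f a j) := congrArg Fin.val h2
    rcases lt_or_gt_of_ne hne with h4 | h4
    · exact ⟨i, j, h4, h3⟩
    · exact ⟨j, i, h4, h3.symm⟩
  have h5 : h (b f a i) < b f a j := by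
    by_contra hcon
    exact hc _ _ (hmono f a i j hij) hcon hcij
  exact (hh a).trans ((hhm a _ (hb f a i).2.1).trans (h5.trans (hb f a j).2.2).le)

theorem lt_F (F : Set (Om → ℕ)) (hF : EverywhereDominating F) : ℵ₁ < #F := by
  obtain ⟨D, hD, hDd⟩ := part1 F hF
  exact (MP_8f36f1_lc.DominatingBound.lt_of_dominating D hDd).trans_le hD

theorem slalom_zero (F : Set (Om → ℕ)) (hF : EverywhereDominating F) (K : Type) (hK : #K ≤ ℵ₀) :
    ∃ 𝒮 : Set (Om → Finset K), #𝒮 ≤ #F ∧ ∀ φ : Om → K, ∃ S ∈ 𝒮, ∀ a, φ a ∈ S a := by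
  classical
  have : Countable K := Cardinal.mk_le_aleph0_iff.1 hK
  obtain ⟨e, he⟩ := exists_injective_nat K
  have hfin : ∀ m : ℕ, {k : K | e k < m}.Finite := fun m =>
    Set.Finite.preimage he.injOn (Set.finite_lt_nat m)
  refine ⟨(fun (f : Om → ℕ) a => (hfin (f a)).toFinset) '' F, Cardinal.mk_image_le, fun φ => ?_⟩
  obtain ⟨f, hf, h1⟩ := hF fun a => e (φ a)
  refine ⟨_, ⟨f, hf, rfl⟩, fun a => ?_⟩
  simp only [Set.Finite.mem_toFinset, Set.mem_ofPred_eq]
  exact h1 a

theorem slalom_one (F : Set (Om → ℕ)) (hF : EverywhereDominating F) (K : Type) (hK : #K ≤ ℵ₁) :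
    ∃ 𝒮 : Set (Om → Finset K), #𝒮 ≤ #F ∧ ∀ φ : Om → K, ∃ S ∈ 𝒮, ∀ a, φ a ∈ S a := by
  classical
  obtain ⟨D, hD, hDd⟩ := part1 F hF
  have hKO : #K ≤ #Om := by
    rw [MP_8f36f1_lc.DominatingBound.mk_Om]
    exact hK
  obtain ⟨e⟩ := (Cardinal.le_def _ _).1 hKO
  have hi : ∀ c : Om, ∃ i : Om → ℕ, Set.InjOn i (Set.Iic c) := fun c =>
    Set.countable_iff_exists_injOn.1 (countable_Iic c)
  choose i hi using hi
  have hfin : ∀ (c : Om) (m : ℕ), {k : K | e k ≤ c ∧ i c (e k) < m}.Finite := by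
    intro c m
    have h1 : {x : Om | x ≤ c ∧ i c x < m}.Finite := by
      refine Set.Finite.of_finite_image ((Set.finite_lt_nat m).subset ?_)
        ((hi c).mono fun x hx => hx.1)
      rintro _ ⟨x, hx, rfl⟩
      exact hx.2
    exact Set.Finite.preimage e.injective.injOn h1
  let S : D × F → Om → Finset K := fun p a => (hfin (p.1.1 a) (p.2.1 a)).toFinset
  refine ⟨Set.range S, ?_, fun φ => ?_⟩
  · have h1 : #(D × F) ≤ #F := by
      rw [Cardinal.mk_prod, Cardinal.lift_id, Cardinal.lift_id]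
      calc #D * #F ≤ #F * #F := mul_le_mul' hD le_rfl
        _ = #F := Cardinal.mul_eq_self ((Cardinal.aleph0_le_aleph 1).trans (lt_F F hF).le)
    exact Cardinal.mk_range_le.trans h1
  · obtain ⟨g, hg, h1⟩ := hDd fun a => e (φ a)
    obtain ⟨f, hf, h2⟩ := hF fun a => i (g a) (e (φ a))
    refine ⟨_, ⟨(⟨g, hg⟩, ⟨f, hf⟩), rfl⟩, fun a => ?_⟩
    simp only [S, Set.Finite.mem_toFinset, Set.mem_ofPred_eq]
    exact ⟨h1 a, h2 a⟩

theorem slalom_succ (F : Set (Om → ℕ)) (hF : EverywhereDominating F) (n : ℕ) :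
    ∀ K : Type, #K ≤ ℵ_ ((n + 1 : ℕ) : Ordinal.{0}) →
    ∃ 𝒮 : Set (Om → Finset K), #𝒮 ≤ max #F (ℵ_ ((n + 1 : ℕ) : Ordinal.{0})) ∧
      ∀ φ : Om → K, ∃ S ∈ 𝒮, ∀ a, φ a ∈ S a := by
  classical
  induction n with
  | zero =>
    intro K hK
    obtain ⟨𝒮, h1, h2⟩ := slalom_one F hF K (by simpa using hK)
    exact ⟨𝒮, h1.trans (le_max_left _ _), h2⟩
  | succ n ih =>
    intro K hK
    set κ : Cardinal.{0} := ℵ_ ((n + 1 : ℕ) : Ordinal.{0}) with hκ
    have hsucc : ℵ_ ((n + 1 + 1 : ℕ) : Ordinal.{0}) = Order.succ κ := by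
      rw [hκ, ← Cardinal.aleph_succ]
      congr 1
    rw [hsucc] at hK ⊢
    have hκ0 : ℵ₀ ≤ κ := Cardinal.aleph0_le_aleph _
    have hκ1 : ℵ₁ ≤ κ := by
      rw [hκ]
      exact Cardinal.aleph_le_aleph.2 (by push_cast; exact le_add_self)
    let Λ : Type := (Order.succ κ).ord.ToType
    have hΛ : #Λ = Order.succ κ := Cardinal.mk_ord_toType _
    have hIic : ∀ b : Λ, #(Set.Iic b) ≤ κ := by
      intro b
      have h1 : #(Set.Iio b) < Order.succ κ := Cardinal.mk_Iio_toType_ord_lt b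
      have h2 : #(Set.Iio b) ≤ κ := Order.lt_succ_iff.1 h1
      have h3 : Set.Iic b = Set.Iio b ∪ {b} := by
        ext c
        simp [le_iff_lt_or_eq]
      rw [h3]
      refine (Cardinal.mk_union_le _ _).trans ?_
      rw [Cardinal.mk_singleton]
      exact Cardinal.add_le_of_le hκ0 h2 (Cardinal.one_le_aleph0.trans hκ0)
    obtain ⟨e⟩ := (Cardinal.le_def _ _).1 (hK.trans hΛ.ge)
    let KK : Λ → Set K := fun b => {k | e k ≤ b}
    have hKK : ∀ b, #(KK b) ≤ κ := by
      intro b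
      refine le_trans ?_ (hIic b)
      exact Cardinal.mk_le_of_injective (f := fun k : KK b => (⟨e k.1, k.2⟩ : Set.Iic b))
        (fun k k' h => Subtype.ext (e.injective (congrArg Subtype.val h)))
    choose 𝒮 h𝒮 h𝒮c using fun b => ih (KK b) (hKK b)
    let T : (Σ b : Λ, 𝒮 b) → Om → Finset K := fun p a => (p.2.1 a).map (Function.Embedding.subtype _)
    refine ⟨Set.range T, ?_, fun φ => ?_⟩
    · refine Cardinal.mk_range_le.trans ?_
      rw [Cardinal.mk_sigma]
      refine (Cardinal.sum_le_sum _ (fun _ => max #F κ) h𝒮).trans ?_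
      rw [Cardinal.sum_const, Cardinal.lift_id, Cardinal.lift_id, hΛ]
      have h1 : Order.succ κ ≤ max #F (Order.succ κ) := le_max_right _ _
      have h2 : max #F κ ≤ max #F (Order.succ κ) :=
        max_le_max le_rfl (Order.le_succ κ)
      refine (mul_le_mul' h1 h2).trans ?_
      rw [Cardinal.mul_eq_self]
      exact (hκ0.trans (Order.le_succ κ)).trans (le_max_right _ _)
    · obtain ⟨b, hb⟩ : ∃ b, ∀ a, e (φ a) ≤ b := by
        by_contra hcon
        push Not at hcon
        choose s hs using hcon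
        have h1 : (Set.univ : Set Λ) ⊆ ⋃ a : Om, Set.Iic (e (φ a)) := fun b _ =>
          mem_iUnion.2 ⟨s b, (hs b).le⟩
        have h2 : #Λ ≤ κ := by
          rw [← Cardinal.mk_univ]
          refine (Cardinal.mk_le_mk_of_subset h1).trans ?_
          refine (Cardinal.mk_iUnion_le_sum_mk).trans ?_
          refine (Cardinal.sum_le_sum _ (fun _ => κ) fun a => hIic _).trans ?_
          rw [Cardinal.sum_const, Cardinal.lift_id, Cardinal.lift_id,
            MP_8f36f1_lc.DominatingBound.mk_Om]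
          exact (mul_le_mul' hκ1 le_rfl).trans (Cardinal.mul_eq_self hκ0).le
        rw [hΛ] at h2
        exact absurd (Order.lt_succ κ) (not_lt.2 h2)
      obtain ⟨S, hS, hSφ⟩ := h𝒮c b fun a => ⟨φ a, hb a⟩
      refine ⟨_, ⟨⟨b, ⟨S, hS⟩⟩, rfl⟩, fun a => ?_⟩
      simp only [T, Finset.mem_map]
      exact ⟨_, hSφ a, rfl⟩

theorem part2 (F : Set (Om → ℕ)) (hF : EverywhereDominating F) (n : ℕ) (K : Type)
    (hK : #K ≤ ℵ_ (n : Ordinal.{0})) :
    ∃ 𝒮 : Set (Om → Finset K), #𝒮 ≤ max #F (ℵ_ (n : Ordinal.{0})) ∧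
      ∀ φ : Om → K, ∃ S ∈ 𝒮, ∀ a, φ a ∈ S a := by
  cases n with
  | zero =>
    obtain ⟨𝒮, h1, h2⟩ := slalom_zero F hF K (by simpa using hK)
    exact ⟨𝒮, h1.trans (le_max_left _ _), h2⟩
  | succ n => exact slalom_succ F hF n K hK

/-! ### Eventually different functions -/

/-- Any two of the functions `φ i` agree on `E` at countably many places only. -/
def ED (E : Set Om) {I K : Type} (φ : I → Om → K) : Prop :=
  ∀ i j, i ≠ j → {a | a ∈ E ∧ φ i a = φ j a}.Countable

theorem ED.mono {E E' : Set Om} (h : E' ⊆ E) {I K : Type} {φ : I → Om → K} (hφ : ED E φ) :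
    ED E' φ := by
  intro i j hij
  refine (hφ i j hij).mono ?_
  rintro a ⟨h1, h2⟩
  exact ⟨h h1, h2⟩

theorem ED.comp {E : Set Om} {I I' K K' : Type} {φ : I → Om → K} (hφ : ED E φ)
    (φ' : I' → Om → K') (c : I' → I) (hc : Function.Injective c)
    (h : ∀ i j, ∀ a ∈ E, φ' i a = φ' j a → φ (c i) a = φ (c j) a) : ED E φ' := by
  intro i j hij
  refine (hφ _ _ fun h' => hij (hc h')).mono ?_
  rintro a ⟨h1, h2⟩
  exact ⟨h1, h i j a h1 h2⟩

theorem unc_piece (E : Set Om) (hE : ¬ E.Countable) (f : Om → ℕ) :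
    ∃ n, ¬ {a | a ∈ E ∧ f a = n}.Countable := by
  by_contra hcon
  push Not at hcon
  apply hE
  refine (Set.countable_iUnion hcon).mono ?_
  intro a ha
  exact mem_iUnion.2 ⟨f a, ha, rfl⟩

theorem ed_finite (E : Set Om) (hE : ¬ E.Countable) {I K : Type} (φ : I → Om → K)
    (hφ : ED E φ) (V : Set K) (hV : V.Finite) (hin : ∀ i, ∀ a ∈ E, φ i a ∈ V) : #I ≤ ℵ₀ := by
  classical
  by_contra hcon
  have hinf : Infinite I := by
    rw [Cardinal.infinite_iff]
    exact (not_le.1 hcon).le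
  obtain ⟨t, htc⟩ := Infinite.exists_subset_card_eq I (hV.toFinset.card + 1)
  have hbad : (⋃ p ∈ (t.offDiag : Set (I × I)), {a | a ∈ E ∧ φ p.1 a = φ p.2 a}).Countable := by
    refine Set.Countable.biUnion (Finset.countable_toSet _) fun p hp => ?_
    rw [Finset.mem_coe, Finset.mem_offDiag] at hp
    exact hφ _ _ hp.2.2
  obtain ⟨a, ha, ha'⟩ : ∃ a ∈ E,
      a ∉ ⋃ p ∈ (t.offDiag : Set (I × I)), {a | a ∈ E ∧ φ p.1 a = φ p.2 a} := by
    by_contra h3
    push Not at h3
    exact hE (hbad.mono fun a ha => h3 a ha)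
  have hinj : Set.InjOn (fun i : I => φ i a) t := by
    intro i hi j hj h4
    by_contra hne
    apply ha'
    refine mem_iUnion₂.2 ⟨(i, j), ?_, ha, h4⟩
    rw [Finset.mem_coe, Finset.mem_offDiag]
    exact ⟨hi, hj, hne⟩
  have hsub : t.image (fun i : I => φ i a) ⊆ hV.toFinset := by
    intro x hx
    obtain ⟨i, -, rfl⟩ := Finset.mem_image.1 hx
    exact hV.mem_toFinset.2 (hin i a ha)
  have h6 := Finset.card_le_card hsub
  rw [Finset.card_image_of_injOn hinj, htc] at h6
  omega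

theorem ed_step (F : Set (Om → ℕ)) (hF : EverywhereDominating F) {K : Type} (l : K → ℕ)
    (μ : Cardinal.{0})
    (H : ∀ (m : ℕ) (E : Set Om), ¬ E.Countable → ∀ (I : Type) (φ : I → Om → K),
      (∀ i, ∀ a ∈ E, l (φ i a) < m) → ED E φ → #I ≤ μ)
    (E : Set Om) (hE : ¬ E.Countable) (I : Type) (φ : I → Om → K) (hφ : ED E φ) :
    #I ≤ #F * μ := by
  choose f hf hlf using fun i : I => hF fun a => l (φ i a)
  let c : I → F := fun i => ⟨f i, hf i⟩
  refine Cardinal.mk_le_mk_mul_of_mk_preimage_le c fun g => ?_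
  obtain ⟨m, hm⟩ := unc_piece E hE g.1
  refine H m _ hm (c ⁻¹' {g}) (fun i => φ i.1) ?_ ?_
  · rintro i a ⟨-, ha⟩
    have h1 : c i.1 = g := i.2
    have h2 : f i.1 = g.1 := congrArg Subtype.val h1
    rw [← ha, ← h2]
    exact hlf i.1 a
  · exact (hφ.mono fun a ha => ha.1).comp _ (fun i : (c ⁻¹' {g}) => i.1)
      Subtype.val_injective fun i j a _ h => h

theorem ed_zero (F : Set (Om → ℕ)) (hF : EverywhereDominating F) (E : Set Om)
    (hE : ¬ E.Countable) (I K : Type) (hK : #K ≤ ℵ₀) (φ : I → Om → K) (hφ : ED E φ) :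
    #I ≤ #F := by
  have : Countable K := Cardinal.mk_le_aleph0_iff.1 hK
  obtain ⟨e, he⟩ := exists_injective_nat K
  have h1 := ed_step F hF e ℵ₀ (fun m E hE I φ h2 h3 => ed_finite E hE φ h3 {k | e k < m}
    (Set.Finite.preimage he.injOn (Set.finite_lt_nat m)) h2) E hE I φ hφ
  have h01 : ℵ₀ ≤ #F := (Cardinal.aleph0_le_aleph 1).trans (lt_F F hF).le
  exact h1.trans ((mul_le_mul' le_rfl h01).trans (Cardinal.mul_eq_self h01).le)

theorem ed_one (F : Set (Om → ℕ)) (hF : EverywhereDominating F) (E : Set Om)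
    (hE : ¬ E.Countable) (I K : Type) (hK : #K ≤ ℵ₁) (φ : I → Om → K) (hφ : ED E φ) :
    #I ≤ #F := by
  obtain ⟨D, hD, hDd⟩ := part1 F hF
  have hKO : #K ≤ #Om := by
    rw [MP_8f36f1_lc.DominatingBound.mk_Om]
    exact hK
  obtain ⟨e⟩ := (Cardinal.le_def _ _).1 hKO
  have hi : ∀ c : Om, ∃ i : Om → ℕ, Set.InjOn i (Set.Iic c) := fun c =>
    Set.countable_iff_exists_injOn.1 (countable_Iic c)
  choose n hn using hi
  choose g hg hgφ using fun i : I => hDd fun a => e (φ i a)
  let c : I → D := fun i => ⟨g i, hg i⟩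
  have h1 : #I ≤ #D * #F := by
    refine Cardinal.mk_le_mk_mul_of_mk_preimage_le c fun d => ?_
    refine ed_zero F hF E hE (c ⁻¹' {d}) ℕ (by simp) (fun i a => n (d.1 a) (e (φ i.1 a))) ?_
    refine hφ.comp _ (fun i : (c ⁻¹' {d}) => i.1) Subtype.val_injective fun i j a _ h => ?_
    have hb : ∀ i : (c ⁻¹' {d}), e (φ i.1 a) ≤ d.1 a := by
      intro i
      have h1 : c i.1 = d := i.2
      have h2 : g i.1 = d.1 := congrArg Subtype.val h1
      rw [← h2]
      exact hgφ i.1 a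
    exact e.injective (hn (d.1 a) (hb i) (hb j) h)
  have h01 : ℵ₀ ≤ #F := (Cardinal.aleph0_le_aleph 1).trans (lt_F F hF).le
  exact h1.trans ((mul_le_mul' hD le_rfl).trans (Cardinal.mul_eq_self h01).le)

theorem ed_aleph (F : Set (Om → ℕ)) (hF : EverywhereDominating F) :
    ∀ o : Ordinal.{0}, o < ω_ 1 → ∀ (E : Set Om), ¬ E.Countable → ∀ I K : Type, #K ≤ ℵ_ o →
      ∀ φ : I → Om → K, ED E φ → #I ≤ max #F (ℵ_ o) := by
  classical
  intro o
  induction o using Ordinal.limitRecOn with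
  | zero =>
    intro _ E hE I K hK φ hφ
    rw [Cardinal.aleph_zero] at hK
    exact (ed_zero F hF E hE I K hK φ hφ).trans (le_max_left _ _)
  | add_one o ih =>
    intro ho E hE I K hK φ hφ
    by_cases h0 : o = 0
    · subst h0
      rw [zero_add] at hK
      exact (ed_one F hF E hE I K hK φ hφ).trans (le_max_left _ _)
    have ho1 : (1 : Ordinal.{0}) ≤ o := Ordinal.one_le_iff_ne_zero.2 h0
    have hlt : o < o + 1 := Order.lt_add_one_iff.2 le_rfl
    have hle : max #F (ℵ_ o) ≤ max #F (ℵ_ (o + 1)) :=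
      max_le_max le_rfl (Cardinal.aleph_le_aleph.2 hlt.le)
    by_cases hKo : #K ≤ ℵ_ o
    · exact (ih (hlt.trans ho) E hE I K hKo φ hφ).trans hle
    · have hinf : ℵ₀ ≤ ℵ_ o := Cardinal.aleph0_le_aleph o
      obtain ⟨r, wo, hr⟩ := Cardinal.exists_ord_eq K
      have hseg : ∀ k : K, #{k' | r k' k} ≤ ℵ_ o := by
        intro k
        have h1 : (Ordinal.typein r k).card < #K := Cardinal.card_typein_lt k hr
        have h2 : (Ordinal.typein r k).card = #{k' // r k' k} := by
          rw [Ordinal.card_typein]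
        rw [h2] at h1
        have h3 := lt_of_lt_of_le h1 hK
        rw [← Cardinal.succ_aleph, Order.lt_succ_iff] at h3
        exact h3
      have hbound : ∀ h : Om → K, ∃ k, ∀ y, r (h y) k := by
        intro h
        by_contra hcon
        push Not at hcon
        apply hKo
        have hun : (Set.univ : Set K) ⊆ ⋃ y : Om, ({k | r k (h y)} ∪ {h y}) := by
          intro k _
          obtain ⟨y, hy⟩ := hcon k
          refine mem_iUnion.2 ⟨y, ?_⟩
          rcases trichotomous_of r (h y) k with h3 | h3 | h3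
          · exact absurd h3 hy
          · exact Or.inr h3.symm
          · exact Or.inl h3
        have h1 : #K ≤ #(⋃ y : Om, ({k | r k (h y)} ∪ {h y}) : Set K) := by
          rw [← Cardinal.mk_univ]
          exact Cardinal.mk_le_mk_of_subset hun
        refine h1.trans ((Cardinal.mk_iUnion_le _).trans ?_)
        have h2 : (⨆ y : Om, #(({k | r k (h y)} ∪ {h y} : Set K))) ≤ ℵ_ o := by
          apply ciSup_le'
          intro y
          refine (Cardinal.mk_union_le _ _).trans ?_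
          rw [Cardinal.mk_singleton]
          exact (add_le_add (hseg (h y)) (Cardinal.one_lt_aleph0.le.trans hinf)).trans
            (Cardinal.add_eq_self hinf).le
        have h3 : #Om ≤ ℵ_ o := by
          rw [MP_8f36f1_lc.DominatingBound.mk_Om]
          exact Cardinal.aleph_le_aleph.2 ho1
        exact (mul_le_mul' h3 h2).trans (Cardinal.mul_eq_self hinf).le
      choose k hk using fun i : I => hbound (φ i)
      have h1 : #I ≤ #K * max #F (ℵ_ o) := by
        refine Cardinal.mk_le_mk_mul_of_mk_preimage_le k fun b => ?_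
        refine ih (hlt.trans ho) E hE (k ⁻¹' {b}) _ (hseg b)
          (fun i a => ⟨φ i.1 a, by
            have h2 : k i.1 = b := i.2
            have h3 := hk i.1 a
            rw [h2] at h3
            exact h3⟩) ?_
        exact hφ.comp _ (fun i : (k ⁻¹' {b}) => i.1) Subtype.val_injective
          fun i j a _ h => congrArg Subtype.val h
      refine h1.trans ((mul_le_mul' (hK.trans (le_max_right #F _)) hle).trans ?_)
      exact (Cardinal.mul_eq_self ((Cardinal.aleph0_le_aleph _).trans (le_max_right _ _))).le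
  | limit o hlim ih =>
    intro ho E hE I K hK φ hφ
    have hcount : (Set.Iio o).Countable := by
      rw [← Cardinal.ord_aleph, Cardinal.lt_ord, ← Cardinal.succ_aleph0, Order.lt_succ_iff] at ho
      rw [← Set.countable_coe_iff, ← Cardinal.mk_le_aleph0_iff, Cardinal.mk_Iio_ordinal]
      rw [← Cardinal.lift_aleph0.{1, 0}]
      exact Cardinal.lift_le.2 ho
    have hne : (Set.Iio o).Nonempty := ⟨0, hlim.bot_lt⟩
    obtain ⟨s, hs⟩ := hcount.exists_eq_range hne
    have hso : ∀ n, s n < o := by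
      intro n
      have : s n ∈ Set.Iio o := by rw [hs]; exact ⟨n, rfl⟩
      exact this
    let T : ℕ → Type := fun n => (ℵ_ (s n)).out
    have hT : ∀ n, #(T n) = ℵ_ (s n) := fun n => Cardinal.mk_out _
    have hKT : #K ≤ #(Σ n : ℕ, T n) := by
      rw [Cardinal.mk_sigma]
      refine hK.trans ?_
      rw [Cardinal.aleph_limit hlim]
      apply ciSup_le'
      rintro ⟨a, ha⟩
      rw [hs] at ha
      obtain ⟨n, rfl⟩ := ha
      have := Cardinal.le_sum (fun n : ℕ => #(T n)) n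
      rw [hT] at this
      exact this
    obtain ⟨e⟩ := hKT
    have hpiece : ∀ n, #{k : K | (e k).1 = n} ≤ ℵ_ (s n) := by
      intro n
      rw [← hT n]
      refine Cardinal.mk_le_of_injective (f := fun k : {k : K | (e k).1 = n} =>
        (cast (congrArg T k.2) (e k.1).2 : T n)) ?_
      rintro ⟨k, hk⟩ ⟨k', hk'⟩ hkk
      apply Subtype.ext
      apply e.injective
      simp only at hkk
      have hk1 : (e k).1 = n := hk
      have hk1' : (e k').1 = n := hk'
      apply Sigma.ext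
      · rw [hk1, hk1']
      · have h1 : HEq (cast (congrArg T hk) (e k).2) (e k).2 := cast_heq _ _
        have h2 : HEq (cast (congrArg T hk') (e k').2) (e k').2 := cast_heq _ _
        exact h1.symm.trans ((heq_of_eq hkk).trans h2)
    have hinit : ∀ m : ℕ, ∃ o' < o, #{k : K | (e k).1 < m} ≤ ℵ_ o' := by
      intro m
      induction m with
      | zero =>
        refine ⟨0, hlim.bot_lt, ?_⟩
        have : {k : K | (e k).1 < 0} = ∅ := by
          ext k
          simp
        rw [this]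
        simp
      | succ m ihm =>
        obtain ⟨o', ho', h1⟩ := ihm
        refine ⟨max o' (s m), max_lt ho' (hso m), ?_⟩
        have h2 : {k : K | (e k).1 < m + 1} = {k : K | (e k).1 < m} ∪ {k : K | (e k).1 = m} := by
          ext k
          simp only [Set.mem_ofPred_eq, Set.mem_union]
          omega
        rw [h2]
        refine (Cardinal.mk_union_le _ _).trans ?_
        have h3 : ℵ₀ ≤ ℵ_ (max o' (s m)) := Cardinal.aleph0_le_aleph _
        exact (add_le_add (h1.trans (Cardinal.aleph_le_aleph.2 (le_max_left _ _)))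
          ((hpiece m).trans (Cardinal.aleph_le_aleph.2 (le_max_right _ _)))).trans
          (Cardinal.add_eq_self h3).le
    have h1 := ed_step F hF (fun k => (e k).1) (max #F (ℵ_ o)) (by
      intro m E hE I φ h2 h3
      obtain ⟨o', ho', h4⟩ := hinit m
      by_cases hne : Nonempty {k : K | (e k).1 < m}
      · obtain ⟨k₀⟩ := hne
        refine (ih o' ho' (ho'.trans ho) E hE I _ h4
          (fun i a => if h : (e (φ i a)).1 < m then ⟨φ i a, h⟩ else k₀) ?_).trans
          (max_le_max le_rfl (Cardinal.aleph_le_aleph.2 ho'.le))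
        refine h3.comp _ id Function.injective_id fun i j a ha h => ?_
        simp only [dif_pos (h2 i a ha), dif_pos (h2 j a ha)] at h
        exact congrArg Subtype.val h
      · have : IsEmpty I := by
          refine ⟨fun i => ?_⟩
          obtain ⟨a, ha⟩ : E.Nonempty := by
            by_contra h5
            rw [Set.not_nonempty_iff_eq_empty] at h5
            rw [h5] at hE
            exact hE Set.countable_empty
          exact hne ⟨⟨φ i a, h2 i a ha⟩⟩
        rw [Cardinal.mk_eq_zero]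
        exact bot_le) E hE I φ hφ
    refine h1.trans ((mul_le_mul' (le_max_left _ (ℵ_ o)) le_rfl).trans ?_)
    exact (Cardinal.mul_eq_self ((Cardinal.aleph0_le_aleph _).trans (le_max_right _ _))).le

theorem ed_cover (F : Set (Om → ℕ)) (hF : EverywhereDominating F) (K : Type) (ν : Cardinal.{0})
    (𝒜 : Set (Set K)) (h𝒜 : #𝒜 ≤ ν) (ha : ∀ A ∈ 𝒜, #A ≤ ν ∧ #A < ℵ_ (ω_ 1))
    (hcov : ∀ S : Set K, #S ≤ ℵ₁ → ∃ s : ℕ → Set K, (∀ n, s n ∈ 𝒜) ∧ S ⊆ ⋃ n, s n)
    (I : Type) (φ : I → Om → K) (hφ : ED Set.univ φ) : #I ≤ max #F ν := by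
  classical
  have h0F : ℵ₀ ≤ #F := (Cardinal.aleph0_le_aleph 1).trans (lt_F F hF).le
  have h0 : ℵ₀ ≤ max #F ν := h0F.trans (le_max_left _ _)
  have hr : ∀ i, #(Set.range (φ i)) ≤ ℵ₁ := by
    intro i
    refine Cardinal.mk_range_le.trans ?_
    rw [MP_8f36f1_lc.DominatingBound.mk_Om]
  choose s hs hsc using fun i => hcov _ (hr i)
  have hl : ∀ i a, ∃ n, φ i a ∈ s i n := fun i a => mem_iUnion.1 (hsc i ⟨a, rfl⟩)
  choose l hl using hl
  choose f hf hlf using fun i : I => hF (l i)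
  choose m hm using unc_piece Set.univ not_countable_univ
  let c : I → F × List 𝒜 := fun i =>
    (⟨f i, hf i⟩, (List.range (m (f i))).map fun n => ⟨s i n, hs i n⟩)
  have h1 : #I ≤ #(F × List 𝒜) * max #F ν := by
    refine Cardinal.mk_le_mk_mul_of_mk_preimage_le c fun p => ?_
    obtain ⟨g, L⟩ := p
    let V : Set K := ⋃ A ∈ L.toFinset, A.1
    have hV : ∀ i : (c ⁻¹' {(g, L)}), ∀ a, a ∈ Set.univ ∧ g.1 a = m g.1 → φ i.1 a ∈ V := by
      rintro i a ⟨-, h2⟩
      have h3 : c i.1 = (g, L) := i.2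
      have h4 : f i.1 = g.1 := congrArg (fun q => q.1.1) h3
      have h5 : (List.range (m (f i.1))).map (fun n => (⟨s i.1 n, hs i.1 n⟩ : 𝒜)) = L :=
        congrArg Prod.snd h3
      have h6 : l i.1 a < m (f i.1) := by
        rw [h4, ← h2, ← h4]
        exact hlf i.1 a
      have h7 : (⟨s i.1 (l i.1 a), hs i.1 _⟩ : 𝒜) ∈
          (List.range (m (f i.1))).map (fun n => (⟨s i.1 n, hs i.1 n⟩ : 𝒜)) :=
        List.mem_map.2 ⟨_, List.mem_range.2 h6, rfl⟩
      rw [h5] at h7
      exact mem_iUnion₂.2 ⟨⟨s i.1 (l i.1 a), hs i.1 _⟩, List.mem_toFinset.2 h7, hl i.1 a⟩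
    have hVc : ∀ t : Finset 𝒜, ∃ o < ω_ 1, #(⋃ A ∈ t, A.1 : Set K) ≤ ℵ_ o ∧
        ℵ_ o ≤ max #F ν := by
      intro t
      induction t using Finset.induction_on with
      | empty =>
        refine ⟨0, Ordinal.omega_pos 1, by simp, ?_⟩
        rw [Cardinal.aleph_zero]
        exact h0
      | insert A t hA ih =>
        obtain ⟨o, ho, h2, h3⟩ := ih
        obtain ⟨o', ho', h4, h5⟩ := MP_8f36f1_lc.SeparatedUnderCH.exists_aleph (ha A.1 A.2).2
        have h5' : ℵ_ o' ≤ max #F ν :=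
          h5.trans (max_le ((ha A.1 A.2).1.trans (le_max_right _ _)) h0)
        have h6 : (⋃ B ∈ insert A t, B.1 : Set K) = A.1 ∪ ⋃ B ∈ t, B.1 := by
          rw [Finset.set_biUnion_insert]
        refine ⟨max o o', max_lt ho ho', ?_, ?_⟩
        · rw [h6]
          refine (Cardinal.mk_union_le _ _).trans ?_
          have h7 : ℵ₀ ≤ ℵ_ (max o o') := Cardinal.aleph0_le_aleph _
          exact (add_le_add (h4.trans (Cardinal.aleph_le_aleph.2 (le_max_right _ _)))
            (h2.trans (Cardinal.aleph_le_aleph.2 (le_max_left _ _)))).trans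
            (Cardinal.add_eq_self h7).le
        · rcases le_total o o' with h8 | h8
          · rw [max_eq_right h8]
            exact h5'
          · rw [max_eq_left h8]
            exact h3
    obtain ⟨o, ho, h2, h3⟩ := hVc L.toFinset
    have hE : ¬ {a | a ∈ (Set.univ : Set Om) ∧ g.1 a = m g.1}.Countable := hm g.1
    by_cases hne : Nonempty V
    · obtain ⟨k₀⟩ := hne
      refine (ed_aleph F hF o ho _ hE (c ⁻¹' {(g, L)}) V h2
        (fun i a => if h : φ i.1 a ∈ V then ⟨φ i.1 a, h⟩ else k₀) ?_).trans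
        (max_le (le_max_left _ _) h3)
      refine (hφ.mono (Set.subset_univ _)).comp _ (fun i : (c ⁻¹' {(g, L)}) => i.1)
        Subtype.val_injective fun i j a ha h => ?_
      simp only [dif_pos (hV i a ha), dif_pos (hV j a ha)] at h
      exact congrArg Subtype.val h
    · have : IsEmpty (c ⁻¹' {(g, L)}) := by
        refine ⟨fun i => ?_⟩
        obtain ⟨a, ha⟩ : {a | a ∈ (Set.univ : Set Om) ∧ g.1 a = m g.1}.Nonempty := by
          by_contra h5
          rw [Set.not_nonempty_iff_eq_empty] at h5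
          rw [h5] at hE
          exact hE Set.countable_empty
        exact hne ⟨⟨φ i.1 a, hV i a ha⟩⟩
      rw [Cardinal.mk_eq_zero]
      exact bot_le
  have h2 : #(F × List 𝒜) ≤ max #F ν := by
    rw [Cardinal.mk_prod, Cardinal.lift_id, Cardinal.lift_id]
    refine (mul_le_mul' (le_max_left _ ν) ((Cardinal.mk_list_le_max _).trans
      (max_le h0 (h𝒜.trans (le_max_right _ _))))).trans ?_
    exact (Cardinal.mul_eq_self h0).le
  exact h1.trans ((mul_le_mul' h2 le_rfl).trans (Cardinal.mul_eq_self h0).le)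

theorem part4 (F : Set (Om → ℕ)) (hF : EverywhereDominating F) (ν : Cardinal.{0})
    (hν : ν < 2 ^ (ℵ₁ : Cardinal.{0}))
    (𝒜 : Set (Set (Set ℕ))) (h𝒜 : #𝒜 ≤ ν) (ha : ∀ A ∈ 𝒜, #A ≤ ν ∧ #A < ℵ_ (ω_ 1))
    (hcov : ∀ S : Set (Set ℕ), #S ≤ ℵ₁ → ∃ s : ℕ → Set (Set ℕ), (∀ n, s n ∈ 𝒜) ∧ S ⊆ ⋃ n, s n) :
    2 ^ (ℵ₁ : Cardinal.{0}) ≤ #F := by
  classical
  have hi : ∀ a : Om, ∃ i : Om → ℕ, Set.InjOn i (Set.Iic a) := fun c =>
    Set.countable_iff_exists_injOn.1 (countable_Iic c)
  choose i hi using hi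
  let φ : Set Om → Om → Set ℕ := fun Z a => i a '' (Z ∩ Set.Iic a)
  have hφ : ED Set.univ φ := by
    intro Z Z' hne
    obtain ⟨b, hb⟩ : ∃ b, ¬ (b ∈ Z ↔ b ∈ Z') := by
      by_contra hc
      push Not at hc
      exact hne (Set.ext hc)
    refine (countable_Iic b).mono ?_
    rintro a ⟨-, h1⟩
    by_contra h2
    have h3 : b ≤ a := (not_le.1 h2).le
    apply hb
    have h4 : ∀ W : Set Om, b ∈ W ↔ i a b ∈ φ W a := by
      intro W
      constructor
      · exact fun h => ⟨b, ⟨h, h3⟩, rfl⟩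
      · rintro ⟨x, ⟨h5, h6⟩, h7⟩
        have := hi a h6 (show b ∈ Set.Iic a from h3) h7
        rw [← this]
        exact h5
    rw [h4 Z, h4 Z', h1]
  have h1 := ed_cover F hF (Set ℕ) ν 𝒜 h𝒜 ha hcov (Set Om) φ hφ
  rw [Cardinal.mk_set, MP_8f36f1_lc.DominatingBound.mk_Om] at h1
  rcases le_max_iff.1 h1 with h2 | h2
  · exact h2
  · exact absurd hν (not_lt.2 h2)

/-- **Main theorem** (ZFC). Let `F` be an everywhere-dominating family of functions `ω₁ → ω`.

(1) Some family of at most `#F` functions `ω₁ → ω₁` dominates all functions `ω₁ → ω₁` everywhere; so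
`#F` is at least the dominating number `𝔡(ω₁)`.

(2) If `#K ≤ ℵ_n`, `n < ω`, then at most `max (#F) ℵ_n` functions `S` from `ω₁` to the finite subsets
of `K` cover all functions `φ : ω₁ → K`: for some `S`, `φ α ∈ S α` for all `α`.

(3) If `#K ≤ ℵ_o`, `o < ω₁`, then a family of functions `ω₁ → K` any two of which agree on a
countable set only has at most `max (#F) ℵ_o` members.

(4) Let `ν < 2 ^ ℵ₁` and let `𝒜` be a family of at most `ν` sets of reals (subsets of `ω`), each of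
size at most `ν` and less than `ℵ_ω₁`, such that every set of at most `ℵ₁` reals is covered by
countably many members of `𝒜`. Then `#F ≥ 2 ^ ℵ₁`, that is, `F` is not small. -/
theorem result : ∀ F : Set (Om → ℕ), EverywhereDominating F →
    (∃ D : Set (Om → Om), #D ≤ #F ∧ ∀ h : Om → Om, ∃ g ∈ D, ∀ a, h a ≤ g a) ∧
    (∀ (n : ℕ) (K : Type), #K ≤ ℵ_ (n : Ordinal.{0}) →
      ∃ 𝒮 : Set (Om → Finset K), #𝒮 ≤ max #F (ℵ_ (n : Ordinal.{0})) ∧
        ∀ φ : Om → K, ∃ S ∈ 𝒮, ∀ a, φ a ∈ S a) ∧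
    (∀ o : Ordinal.{0}, o < ω_ 1 → ∀ K : Type, #K ≤ ℵ_ o → ∀ Φ : Set (Om → K),
      (∀ φ ∈ Φ, ∀ ψ ∈ Φ, φ ≠ ψ → {a | φ a = ψ a}.Countable) → #Φ ≤ max #F (ℵ_ o)) ∧
    (∀ ν : Cardinal.{0}, ν < 2 ^ (ℵ₁ : Cardinal.{0}) → ∀ 𝒜 : Set (Set (Set ℕ)), #𝒜 ≤ ν →
      (∀ A ∈ 𝒜, #A ≤ ν ∧ #A < ℵ_ (ω_ 1)) →
      (∀ S : Set (Set ℕ), #S ≤ ℵ₁ → ∃ s : ℕ → Set (Set ℕ), (∀ n, s n ∈ 𝒜) ∧ S ⊆ ⋃ n, s n) →
      2 ^ (ℵ₁ : Cardinal.{0}) ≤ #F) := by
  refine fun F hF => ⟨part1 F hF, part2 F hF, fun o ho K hK Φ hΦ => ?_,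
    fun ν hν 𝒜 h𝒜 ha hcov => part4 F hF ν hν 𝒜 h𝒜 ha hcov⟩
  refine ed_aleph F hF o ho Set.univ not_countable_univ Φ K hK (fun φ => φ.1) ?_
  intro φ ψ hne
  exact (hΦ _ φ.2 _ ψ.2 fun h => hne (Subtype.ext h)).mono fun a ha => ha.2

end Pool.Agent.Results.MP_54d188_lc.LowerBounds
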